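import Pool.Agent.H315R3.ETC.Rec
import Pool.Agent.H315R3.ETC.Gen
import Pool.Agent.TH673.VG.FieldInd

/-! # MP_2429c0_al: group extensions are recognised by one quaternion algebra

Let `F` be a field of characteristic `≠ 2` in which `-1` is a square, with finitely many but at
least four square classes, and let `N(a)` be the group of the nonzero values of `x² - a y²`.  The
quaternionic structure of `F` is a group extension of a smaller structure if and only if some
quaternion division algebra over `F` has independent slots: `N(u) ∩ N(v) = F*²` for any two of its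
slots `u, v` from different square classes. -/

set_option autoImplicit false

namespace Pool.Agent.Results.MP_2429c0_al.IndependentSlots

open Pool.Agent.H315R3.ETC Pool.Agent.TH188.ET Pool.Agent.TH673.VG
open scoped Quaternion

/-- the group of squares of `F*` -/
def squares (F : Type*) [Field F] : Subgroup Fˣ := (powMonoidHom 2 : Fˣ →* Fˣ).range

/-- `u` is a slot of the quaternion algebra `(a,b)`: it is isomorphic to some `(u,x)` -/
def IsSlot {F : Type*} [Field F] (a b u : Fˣ) : Prop :=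
  ∃ x : Fˣ, Nonempty (ℍ[F,(u : F),0,(x : F)] ≃ₐ[F] ℍ[F,(a : F),0,(b : F)])

/-- the quaternion algebra `(a,b)` is not split, and `N(u) ∩ N(v) = F*²` for any two of its slots
from different square classes -/
def Independent {F : Type*} [Field F] (a b : Fˣ) : Prop :=
  b ∉ normGroup a ∧ ∀ u v : Fˣ, IsSlot a b u → IsSlot a b v → u * v ∉ squares F →
    normGroup u ⊓ normGroup v = squares F

theorem result {F : Type*} [Field F] (h2 : (2 : F) ≠ 0) (hfin : FinSq F)
    (hm : IsSquare (-1 : F)) (h4 : 4 ≤ (squares F).index) :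
    (∃ a b : Fˣ, Independent a b) ↔
      ∃ T : QData, IsQuat T ∧ T.neg = 1 ∧ 2 * Nat.card T.G = (squares F).index ∧
        IsStructureOf F (ext T) := by
  obtain ⟨S, hS, hSfin, hSq⟩ := exists_structure h2 hfin
  obtain ⟨φ, hs, hk, hn, h0, hq⟩ := id hS
  have hz : ∀ a b : Fˣ, S.q (φ a) (φ b) = S.zero ↔ NormFrom a b := by
    intro a b
    rw [← qiso_one h2, ← h0, ← map_one φ]
    exact hq a b 1 1
  have hker : squares F = φ.ker := by
    ext a
    rw [MonoidHom.mem_ker, hk]
    constructor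
    · rintro ⟨b, hb⟩; exact ⟨b, hb.symm⟩
    · rintro ⟨b, hb⟩; exact ⟨b, hb.symm⟩
  have hneg : S.neg = 1 := by
    rw [← hn, hk]
    obtain ⟨r, hr⟩ := hm
    have hr0 : r ≠ 0 := by
      rintro rfl
      rw [mul_zero] at hr
      exact neg_ne_zero.2 one_ne_zero hr
    refine ⟨Units.mk0 r hr0, ?_⟩
    ext
    rw [Units.val_neg, Units.val_one, Units.val_pow_eq_pow_val, Units.val_mk0, hr, pow_two]
  have hcard : Nat.card S.G = (squares F).index := by
    rw [hker, Subgroup.index_ker, MonoidHom.range_eq_top.2 hs, Subgroup.card_top]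
  have hslot : ∀ a b u : Fˣ, IsSlot a b u ↔ ∃ x, S.q (φ u) x = S.q (φ a) (φ b) := by
    intro a b u
    constructor
    · rintro ⟨x, hx⟩
      exact ⟨φ x, (hq _ _ _ _).2 hx⟩
    · rintro ⟨x, hx⟩
      obtain ⟨x, rfl⟩ := hs x
      exact ⟨x, (hq _ _ _ _).1 hx⟩
  have hne : ∀ u v : Fˣ, u * v ∉ squares F ↔ φ u ≠ φ v := by
    intro u v
    rw [hker, MonoidHom.mem_ker, map_mul, not_iff_not]
    constructor
    · intro h
      exact (eq_inv_of_mul_eq_one_left h).trans (inv_eq_of_mul_eq_one_left (hSq.exp2 _))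
    · intro h
      rw [h]; exact hSq.exp2 _
  have hsqN : ∀ b : Fˣ, squares F ≤ normGroup b := by
    rintro b _ ⟨c, rfl⟩
    exact NormFrom.sq b c
  have hind : ∀ a b : Fˣ, Independent a b ↔ S.q (φ a) (φ b) ≠ S.zero ∧
      Indep S (S.q (φ a) (φ b)) := by
    intro a b
    refine and_congr ?_ ?_
    · rw [Ne, hz]; exact Iff.rfl
    · constructor
      · rintro h u v huv hu hv d hd1 hd2
        obtain ⟨u, rfl⟩ := hs u
        obtain ⟨v, rfl⟩ := hs v
        obtain ⟨d, rfl⟩ := hs d
        have h3 := h u v ((hslot a b u).2 hu) ((hslot a b v).2 hv) ((hne u v).2 huv)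
        have h5 : d ∈ normGroup u ⊓ normGroup v := ⟨(hz u d).1 hd1, (hz v d).1 hd2⟩
        rw [h3, hker, MonoidHom.mem_ker] at h5
        exact h5
      · intro h u v hu hv huv
        refine le_antisymm ?_ (le_inf (hsqN u) (hsqN v))
        rintro d ⟨hd1, hd2⟩
        rw [hker, MonoidHom.mem_ker]
        exact h (φ u) (φ v) ((hne u v).1 huv) ((hslot a b u).1 hu) ((hslot a b v).1 hv) (φ d)
          ((hz u d).2 hd1) ((hz v d).2 hd2)
  constructor
  · rintro ⟨a, b, hab⟩
    obtain ⟨h5, h6⟩ := (hind a b).1 hab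
    obtain ⟨T, hT, hTn, hc, hi⟩ := rec_mp hSq hneg hSfin h5 rfl h6
    refine ⟨T, hT, hTn, hc.trans hcard, ?_⟩
    obtain ⟨f, hf, hfq⟩ := hi
    refine ⟨f.symm.toMonoidHom.comp φ, f.symm.surjective.comp hs, ?_, ?_, ?_, ?_⟩
    · intro c
      rw [← hk]
      show f.symm (φ c) = 1 ↔ _
      rw [MulEquiv.map_eq_one_iff]
    · show f.symm (φ (-1)) = (ext T).neg
      rw [hn, ← hf, MulEquiv.symm_apply_apply]
    · show ((T.q 1 1, pw (pw T.neg 1) 1 * pw 1 1 * pw 1 1) : T.Q × T.G) = (T.zero, 1)
      have e1 : T.q 1 1 = T.zero := by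
        have := hT.qs1 1
        rw [mul_one] at this
        have h7 := (hT.qs3 1 1 1).1 rfl
        rwa [mul_one] at h7
      rw [e1]
      simp [pw]
    · intro c d e g
      rw [← hq]
      show (ext T).q (f.symm (φ c)) (f.symm (φ d)) = (ext T).q (f.symm (φ e)) (f.symm (φ g)) ↔ _
      rw [hfq, MulEquiv.apply_symm_apply, MulEquiv.apply_symm_apply, MulEquiv.apply_symm_apply,
        MulEquiv.apply_symm_apply]
  · rintro ⟨T, hT, hTn, hc, hTF⟩
    have hi : Iso (ext T) S := iso_of_structure hTF hS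
    obtain ⟨t, ht, ⟨x, y, rfl⟩, hI⟩ := rec_mpr hSq (by rw [hcard]; exact h4) hT hTn
      (by rw [hc, hcard]) hi
    obtain ⟨a, rfl⟩ := hs x
    obtain ⟨b, rfl⟩ := hs y
    exact ⟨a, b, (hind a b).2 ⟨ht, hI⟩⟩

end Pool.Agent.Results.MP_2429c0_al.IndependentSlots
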