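import Pool.Agent.TH673.VG.Crit
import Pool.Agent.TH673.VG.CritInd
import Pool.Agent.TH673.VG.ChainInd
import Pool.Agent.TH673.VG.FieldInd

/-! # MP_2429c0_al: a norm group criterion for the weak elementary type conjecture

Let `F` be a field of characteristic `≠ 2` with finitely many square classes, and let `N(a)` be the
group of the nonzero values of `x² - a y²`.  The quaternionic structure of `F` is of elementary type
if and only if every subgroup `H ≠ F*` of `F*` which contains the squares has an `a ∉ H` with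
`N(ah) ⊆ N(a) H` for all `h ∈ H`.  Equivalently: for some `a ∉ H`, every quaternion algebra `(a,x)`
which is isomorphic to some `(h,y)` with `h ∈ H` is isomorphic to some `(a,k)` with `k ∈ H`. -/

set_option autoImplicit false

namespace Pool.Agent.Results.MP_2429c0_al.NormGroupCriterion

open Pool.Agent.H315R3.ETC Pool.Agent.TH188.ET Pool.Agent.TH673.VG
open scoped Quaternion

/-- the group of squares of `F*` -/
def squares (F : Type*) [Field F] : Subgroup Fˣ := (powMonoidHom 2 : Fˣ →* Fˣ).range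

/-- some `a ∉ H` satisfies `N(ah) ⊆ N(a) H` for all `h ∈ H` -/
def NormStep {F : Type*} [Field F] (H : Subgroup Fˣ) : Prop :=
  ∃ a : Fˣ, a ∉ H ∧ ∀ h ∈ H, normGroup (a * h) ≤ normGroup a ⊔ H

/-- for some `a ∉ H`, every quaternion algebra `(a,x)` isomorphic to some `(h,y)`, `h ∈ H`, is
isomorphic to some `(a,k)`, `k ∈ H` -/
def AlgebraStep {F : Type*} [Field F] (H : Subgroup Fˣ) : Prop :=
  ∃ a : Fˣ, a ∉ H ∧ ∀ h ∈ H, ∀ x y : Fˣ,
    Nonempty (ℍ[F,(a : F),0,(x : F)] ≃ₐ[F] ℍ[F,(h : F),0,(y : F)]) →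
    ∃ k ∈ H, Nonempty (ℍ[F,(a : F),0,(x : F)] ≃ₐ[F] ℍ[F,(a : F),0,(k : F)])

/-- some `a ∉ H` and `g ∈ H` satisfy `N(ah) ⊆ N(a) H ∪ N(ag) H ∪ N(a) N(ag)` for all `h ∈ H` -/
def WeakStep {F : Type*} [Field F] (H : Subgroup Fˣ) : Prop :=
  ∃ a : Fˣ, a ∉ H ∧ ∃ g ∈ H, ∀ h ∈ H, ∀ x ∈ normGroup (a * h),
    x ∈ normGroup a ⊔ H ∨ x ∈ normGroup (a * g) ⊔ H ∨ x ∈ normGroup a ⊔ normGroup (a * g)

theorem result {F : Type*} [Field F] (h2 : (2 : F) ≠ 0) (hfin : FinSq F) :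
    ((∃ S : QData, Elem S ∧ IsStructureOf F S) ↔
      ∀ H : Subgroup Fˣ, squares F ≤ H → H ≠ ⊤ → NormStep H) ∧
    ((∃ S : QData, Elem S ∧ IsStructureOf F S) ↔
      ∀ H : Subgroup Fˣ, squares F ≤ H → H ≠ ⊤ → AlgebraStep H) ∧
    ((∃ S : QData, Elem S ∧ IsStructureOf F S) ↔
      ∀ H : Subgroup Fˣ, squares F ≤ H → (∀ a : Fˣ, (normGroup a).index ≤ 2 → a ∈ H) →
        4 ≤ (squares F).relIndex H → 8 ≤ H.index → WeakStep H) := by
  obtain ⟨S, hS, hSfin, hSq⟩ := exists_structure h2 hfin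
  obtain ⟨φ, hs, hk, hn, h0, hq⟩ := id hS
  have hz : ∀ a b : Fˣ, S.q (φ a) (φ b) = S.zero ↔ NormFrom a b := by
    intro a b
    rw [← qiso_one h2, ← h0, ← map_one φ]
    exact hq a b 1 1
  have hel : (∃ S : QData, Elem S ∧ IsStructureOf F S) ↔ Elem S :=
    ⟨fun ⟨T, hT, hTs⟩ => Elem.iso _ _ hT (iso_of_structure hTs hS), fun h => ⟨S, h, hS⟩⟩
  have hker : squares F = φ.ker := by
    ext a
    rw [MonoidHom.mem_ker, hk]
    constructor
    · rintro ⟨b, hb⟩; exact ⟨b, hb.symm⟩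
    · rintro ⟨b, hb⟩; exact ⟨b, hb.symm⟩
  have hcm : ∀ H : Subgroup Fˣ, squares F ≤ H → (H.map φ).comap φ = H := fun H hH =>
    Subgroup.comap_map_eq_self (hker ▸ hH)
  have hmem : ∀ H : Subgroup Fˣ, squares F ≤ H → ∀ a : Fˣ, φ a ∈ H.map φ ↔ a ∈ H := by
    intro H hH a
    conv_rhs => rw [← hcm H hH]
    exact Iff.rfl
  have hmc : ∀ H : Subgroup S.G, (H.comap φ).map φ = H := fun H =>
    Subgroup.map_comap_eq_self_of_surjective hs H
  have hsq : ∀ H : Subgroup S.G, squares F ≤ H.comap φ := fun H => by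
    rw [hker]; intro x hx
    show φ x ∈ H
    rw [MonoidHom.mem_ker.1 hx]; exact H.one_mem
  have hnt : ∀ H : Subgroup Fˣ, squares F ≤ H → (H ≠ ⊤ ↔ H.map φ ≠ ⊤) := by
    intro H hH
    rw [not_iff_not]
    constructor
    · rintro rfl
      rw [← MonoidHom.range_eq_map, MonoidHom.range_eq_top]; exact hs
    · intro h
      rw [← hcm H hH, h, Subgroup.comap_top]
  -- translation of the three conditions
  have t1 : ∀ H : Subgroup Fˣ, squares F ≤ H → (NormStep H ↔ Step S (H.map φ)) := by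
    intro H hH
    constructor
    · rintro ⟨a, ha, h⟩
      refine ⟨φ a, fun h' => ha ((hmem H hH a).1 h'), ?_⟩
      rintro _ ⟨k, hkH, rfl⟩ x hx
      obtain ⟨x, rfl⟩ := hs x
      rw [← map_mul, hz] at hx
      obtain ⟨u, hu, v, hv, e⟩ := Subgroup.mem_sup.1 (h k hkH hx)
      exact ⟨φ u, φ v, (hz a u).2 hu, ⟨v, hv, rfl⟩, by rw [← map_mul, e]⟩
    · rintro ⟨a, ha, h⟩
      obtain ⟨a, rfl⟩ := hs a
      refine ⟨a, fun h' => ha ⟨a, h', rfl⟩, fun k hkH x hx => ?_⟩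
      obtain ⟨u, v, hu, hv, e⟩ := h (φ k) ⟨k, hkH, rfl⟩ (φ x) (by rw [← map_mul, hz]; exact hx)
      obtain ⟨u, rfl⟩ := hs u
      refine Subgroup.mem_sup.2 ⟨u, (hz a u).1 hu, u⁻¹ * x, ?_, mul_inv_cancel_left u x⟩
      rw [← hmem H hH, map_mul, map_inv, ← e, inv_mul_cancel_left]
      exact hv
  have t2 : ∀ H : Subgroup Fˣ, squares F ≤ H → (AlgebraStep H ↔ Common S (H.map φ)) := by
    intro H hH
    constructor
    · rintro ⟨a, ha, h⟩
      refine ⟨φ a, fun h' => ha ((hmem H hH a).1 h'), ?_⟩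
      rintro _ ⟨k, hkH, rfl⟩ x y hxy
      obtain ⟨x, rfl⟩ := hs x
      obtain ⟨y, rfl⟩ := hs y
      obtain ⟨l, hl, hl'⟩ := h k hkH x y ((hq _ _ _ _).1 hxy)
      exact ⟨φ l, ⟨l, hl, rfl⟩, (hq _ _ _ _).2 hl'⟩
    · rintro ⟨a, ha, h⟩
      obtain ⟨a, rfl⟩ := hs a
      refine ⟨a, fun h' => ha ⟨a, h', rfl⟩, fun k hkH x y hxy => ?_⟩
      obtain ⟨_, ⟨l, hl, rfl⟩, hl'⟩ := h (φ k) ⟨k, hkH, rfl⟩ (φ x) (φ y) ((hq _ _ _ _).2 hxy)
      exact ⟨l, hl, (hq _ _ _ _).1 hl'⟩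
  have hsup : ∀ (a : Fˣ) (H : Subgroup Fˣ), squares F ≤ H → ∀ x : Fˣ, x ∈ normGroup a ⊔ H ↔
      ∃ v k : S.G, S.q (φ a) v = S.zero ∧ k ∈ H.map φ ∧ v * k = φ x := by
    intro a H hH x
    constructor
    · intro hx
      obtain ⟨u, hu, v, hv, e⟩ := Subgroup.mem_sup.1 hx
      exact ⟨φ u, φ v, (hz a u).2 hu, ⟨v, hv, rfl⟩, by rw [← map_mul, e]⟩
    · rintro ⟨u, v, hu, hv, e⟩
      obtain ⟨u, rfl⟩ := hs u
      refine Subgroup.mem_sup.2 ⟨u, (hz a u).1 hu, u⁻¹ * x, ?_, mul_inv_cancel_left u x⟩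
      rw [← hmem H hH, map_mul, map_inv, ← e, inv_mul_cancel_left]
      exact hv
  have hsup2 : ∀ (a b x : Fˣ), x ∈ normGroup a ⊔ normGroup b ↔
      ∃ v w : S.G, S.q (φ a) v = S.zero ∧ S.q (φ b) w = S.zero ∧ v * w = φ x := by
    intro a b x
    have hb : squares F ≤ normGroup b := by
      rintro _ ⟨c, rfl⟩
      exact NormFrom.sq b c
    rw [hsup a _ hb]
    constructor
    · rintro ⟨v, _, hv, ⟨w, hw, rfl⟩, e⟩
      exact ⟨v, φ w, hv, (hz b w).2 hw, e⟩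
    · rintro ⟨v, w, hv, hw, e⟩
      obtain ⟨w, rfl⟩ := hs w
      exact ⟨v, φ w, hv, ⟨w, (hz b w).1 hw, rfl⟩, e⟩
  have t3 : ∀ H : Subgroup Fˣ, squares F ≤ H → (WeakStep H ↔ StepTwo S (H.map φ)) := by
    intro H hH
    constructor
    · rintro ⟨a, ha, g, hg, h⟩
      refine ⟨φ a, fun h' => ha ((hmem H hH a).1 h'), φ g, ⟨g, hg, rfl⟩, ?_⟩
      rintro _ ⟨k, hkH, rfl⟩ x hx
      obtain ⟨x, rfl⟩ := hs x
      rw [← map_mul, hz] at hx
      rcases h k hkH x hx with h3 | h3 | h3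
      · obtain ⟨v, l, h4, h5, h6⟩ := (hsup a H hH x).1 h3
        exact Or.inl ⟨v, l, Or.inl h4, h5, h6⟩
      · obtain ⟨v, l, h4, h5, h6⟩ := (hsup (a * g) H hH x).1 h3
        rw [map_mul] at h4
        exact Or.inl ⟨v, l, Or.inr h4, h5, h6⟩
      · obtain ⟨v, l, h4, h5, h6⟩ := (hsup2 a (a * g) x).1 h3
        rw [map_mul] at h5
        exact Or.inr ⟨v, l, h4, h5, h6⟩
    · rintro ⟨a, ha, g, hg, h⟩
      obtain ⟨a, rfl⟩ := hs a
      obtain ⟨g, hg, rfl⟩ := hg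
      refine ⟨a, fun h' => ha ⟨a, h', rfl⟩, g, hg, fun k hkH x hx => ?_⟩
      rcases h (φ k) ⟨k, hkH, rfl⟩ (φ x) (by rw [← map_mul, hz]; exact hx) with
        ⟨v, l, h4 | h4, h5, h6⟩ | ⟨v, l, h4, h5, h6⟩
      · exact Or.inl ((hsup a H hH x).2 ⟨v, l, h4, h5, h6⟩)
      · rw [← map_mul] at h4
        exact Or.inr (Or.inl ((hsup (a * g) H hH x).2 ⟨v, l, h4, h5, h6⟩))
      · rw [← map_mul] at h5
        exact Or.inr (Or.inr ((hsup2 a (a * g) x).2 ⟨v, l, h4, h5, h6⟩))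
  have hstep : Elem S → ∀ H : Subgroup S.G, H ≠ ⊤ → Step S H := stepAll_of_elem hSq
  have hstep' : (∀ H : Subgroup S.G, H ≠ ⊤ → Step S H) → Elem S := fun h =>
    elem_of_step hSq fun H hH _ => stepTwo_of_step (h H hH)
  rw [hel]
  refine ⟨⟨fun h H hH hHt => (t1 H hH).2 (hstep h _ ((hnt H hH).1 hHt)), fun h => hstep' ?_⟩,
    ⟨fun h H hH hHt => (t2 H hH).2 ((step_iff_common hSq _).1 (hstep h _ ((hnt H hH).1 hHt))),
      fun h => hstep' ?_⟩, ⟨fun h H hH _ _ hi => ?_, fun h => ?_⟩⟩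
  · intro H hH
    have h1 := (t1 _ (hsq H)).1 (h _ (hsq H) (by rw [hnt _ (hsq H), hmc]; exact hH))
    rwa [hmc] at h1
  · intro H hH
    have h1 := (t2 _ (hsq H)).1 (h _ (hsq H) (by rw [hnt _ (hsq H), hmc]; exact hH))
    rw [hmc] at h1
    exact (step_iff_common hSq H).2 h1
  · refine (t3 H hH).2 (stepTwo_of_step (hstep h _ ((hnt H hH).1 ?_)))
    rintro rfl
    rw [Subgroup.index_top] at hi
    omega
  · refine elem_of_step hSq fun H hH hI => ?_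
    by_cases hi : 8 ≤ H.index
    · by_cases hc : 4 ≤ Nat.card H
      · have h1 := (t3 _ (hsq H)).1 (h _ (hsq H) ?_ ?_ ?_)
        · rwa [hmc] at h1
        · intro a ha
          exact hI (φ a) ((index_two_iff hs hk hSfin hz a).1 ha)
        · have h5 : (squares F).relIndex (H.comap φ) = Nat.card H := by
            rw [hker, ← MonoidHom.comap_bot φ, Subgroup.relIndex_comap, hmc,
              Subgroup.relIndex_bot_left]
          rw [h5]; exact hc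
        · rw [Subgroup.index_comap_of_surjective _ hs]; exact hi
      · exact stepTwo_of_card hSq H hH (by omega)
    · exact stepTwo_of_step (step_of_index hSq H hH (by omega))

end Pool.Agent.Results.MP_2429c0_al.NormGroupCriterion
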