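import Pool.Agent.TH673.VG.Sym
import Pool.Agent.TH673.VG.Ind
import Pool.Agent.TH673.VG.IdxTwo
import Pool.Agent.TH673.VG.FieldInd

/-! # MP_2429c0_al: fields in which products of norm groups are norm groups

Let `F` be a field of characteristic `≠ 2` with finitely many square classes, and let `N(a)` be the
group of the nonzero values of `x² - a y²`.  The quaternionic structure of `F` is a direct product
of structures with at most two quaternions if and only if the product of any two norm groups is a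
norm group, if and only if `F*` is generated by the `a` whose norm group has index at most two;
two more characterisations are given, and these structures are of elementary type. -/

set_option autoImplicit false

namespace Pool.Agent.Results.MP_2429c0_al.NormGroupProducts

open Pool.Agent.H315R3.ETC Pool.Agent.TH188.ET Pool.Agent.TH673.VG

/-- the quaternionic structure of `F` is isomorphic to a direct product of finite quaternionic
structures with at most two quaternions -/
def ProductOfLocal (F : Type*) [Field F] : Prop := ∃ S : QData, ProdTwo S ∧ IsStructureOf F S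

/-- the quaternionic structure of `F` is of elementary type -/
def ElementaryType (F : Type*) [Field F] : Prop := ∃ S : QData, Elem S ∧ IsStructureOf F S

/-- `N(a) N(b) N(ab) = F*` for all `a, b` -/
def TripleNorms (F : Type*) [Field F] : Prop :=
  ∀ a b : Fˣ, normGroup a ⊔ normGroup b ⊔ normGroup (a * b) = ⊤

theorem result {F : Type*} [Field F] (h2 : (2 : F) ≠ 0) (hfin : FinSq F) :
    (ProductOfLocal F ↔ ∀ a b : Fˣ, ∃ c : Fˣ, normGroup a ⊔ normGroup b = normGroup c) ∧
    (ProductOfLocal F ↔ Subgroup.closure {a : Fˣ | (normGroup a).index ≤ 2} = ⊤) ∧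
    (ProductOfLocal F ↔ TripleNorms F ∧
      ∀ a : Fˣ, normGroup a ≠ ⊤ → ∃ t : Fˣ, normGroup a ≤ normGroup t ∧
        (normGroup t).index = 2) ∧
    (ProductOfLocal F ↔ TripleNorms F ∧ ElementaryType F) := by
  obtain ⟨S, hS, hSfin, hSq⟩ := exists_structure h2 hfin
  obtain ⟨φ, hs, hk, hn, h0, hq⟩ := id hS
  have hz : ∀ a b : Fˣ, S.q (φ a) (φ b) = S.zero ↔ NormFrom a b := by
    intro a b
    rw [← qiso_one h2, ← h0, ← map_one φ]
    exact hq a b 1 1
  have hel : ElementaryType F ↔ Elem S :=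
    ⟨fun ⟨T, hT, hTs⟩ => Elem.iso _ _ hT (iso_of_structure hTs hS), fun h => ⟨S, h, hS⟩⟩
  have hP : ProductOfLocal F ↔ ProdTwo S :=
    ⟨fun ⟨T, hT, hTs⟩ => ProdTwo.iso _ _ hT hSq (iso_of_structure hTs hS), fun h => ⟨S, h, hS⟩⟩
  have hsq : ∀ b : Fˣ, φ.ker ≤ normGroup b := by
    intro b x hx
    obtain ⟨c, rfl⟩ := (hk x).1 hx
    exact NormFrom.sq b c
  have hsup : ∀ (a b x : Fˣ), x ∈ normGroup a ⊔ normGroup b ↔
      ∃ v w : S.G, S.q (φ a) v = S.zero ∧ S.q (φ b) w = S.zero ∧ v * w = φ x := by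
    intro a b x
    constructor
    · intro hx
      obtain ⟨u, hu, v, hv, e⟩ := Subgroup.mem_sup.1 hx
      exact ⟨φ u, φ v, (hz a u).2 hu, (hz b v).2 hv, by rw [← map_mul, e]⟩
    · rintro ⟨u, v, hu, hv, e⟩
      obtain ⟨u, rfl⟩ := hs u
      obtain ⟨v, rfl⟩ := hs v
      have h3 : x = u * (v * ((u * v)⁻¹ * x)) := by group
      have h4 : (u * v)⁻¹ * x ∈ φ.ker := by
        rw [MonoidHom.mem_ker, map_mul, map_inv, map_mul, e, inv_mul_cancel]
      refine Subgroup.mem_sup.2 ⟨u, (hz a u).1 hu, v * ((u * v)⁻¹ * x),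
        (normGroup b).mul_mem ((hz b v).1 hv) (hsq b h4), h3.symm⟩
  have hsup3 : ∀ (a b c x : Fˣ), x ∈ normGroup a ⊔ normGroup b ⊔ normGroup c ↔
      ∃ u v w : S.G, S.q (φ a) u = S.zero ∧ S.q (φ b) v = S.zero ∧ S.q (φ c) w = S.zero ∧
        u * v * w = φ x := by
    intro a b c x
    constructor
    · intro hx
      obtain ⟨u, hu, w, hw, e⟩ := Subgroup.mem_sup.1 hx
      obtain ⟨s, t, h3, h4, h5⟩ := (hsup a b u).1 hu
      exact ⟨s, t, φ w, h3, h4, (hz c w).2 hw, by rw [h5, ← map_mul, e]⟩
    · rintro ⟨u, v, w, hu, hv, hw, e⟩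
      obtain ⟨u, rfl⟩ := hs u
      obtain ⟨v, rfl⟩ := hs v
      obtain ⟨w, rfl⟩ := hs w
      have h3 : x = (u * v) * (w * ((u * v * w)⁻¹ * x)) := by group
      have h4 : (u * v * w)⁻¹ * x ∈ φ.ker := by
        rw [MonoidHom.mem_ker, map_mul, map_inv, map_mul, map_mul, e, inv_mul_cancel]
      refine Subgroup.mem_sup.2 ⟨u * v, (hsup a b _).2 ⟨φ u, φ v, hu, hv, (map_mul φ u v).symm⟩,
        w * ((u * v * w)⁻¹ * x), (normGroup c).mul_mem ((hz c w).1 hw) (hsq c h4), h3.symm⟩
  have hidx : ∀ a : Fˣ, (normGroup a).index ≤ 2 ↔ IndexTwo S (φ a) :=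
    index_two_iff hs hk hSfin hz
  have hi0 : ∀ a : Fˣ, (normGroup a).index ≠ 0 := by
    intro a h
    have h1 : φ.ker.index ≠ 0 := by
      have := Finite.of_equiv _ (QuotientGroup.quotientKerEquivOfSurjective φ hs).symm.toEquiv
      exact Subgroup.index_ne_zero_of_finite
    exact h1 (Nat.eq_zero_of_zero_dvd (h ▸ Subgroup.index_dvd_of_le (hsq a)))
  -- translations
  have t1 : (∀ a b : Fˣ, ∃ c : Fˣ, normGroup a ⊔ normGroup b = normGroup c) ↔
      ProductsClosed S := by
    constructor
    · intro h a b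
      obtain ⟨a, rfl⟩ := hs a
      obtain ⟨b, rfl⟩ := hs b
      obtain ⟨c, hc⟩ := h a b
      refine ⟨φ c, fun x => ?_⟩
      obtain ⟨x, rfl⟩ := hs x
      rw [← hsup, hc]
      exact hz c x
    · intro h a b
      obtain ⟨c, hc⟩ := h (φ a) (φ b)
      obtain ⟨c, rfl⟩ := hs c
      refine ⟨c, ?_⟩
      ext x
      rw [hsup, ← hc]
      exact hz c x
  have t2 : TripleNorms F ↔ TripleProducts S := by
    constructor
    · intro h a b x
      obtain ⟨a, rfl⟩ := hs a
      obtain ⟨b, rfl⟩ := hs b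
      obtain ⟨x, rfl⟩ := hs x
      rw [← map_mul]
      exact (hsup3 a b (a * b) x).1 (by rw [h a b]; trivial)
    · intro h a b
      rw [eq_top_iff]
      intro x _
      rw [hsup3, map_mul]
      exact h (φ a) (φ b) (φ x)
  have ntop : ∀ a : Fˣ, normGroup a ≠ ⊤ ↔ ∃ y : S.G, S.q (φ a) y ≠ S.zero := by
    intro a
    constructor
    · intro h
      by_contra! hc
      exact h (eq_top_iff.2 fun x _ => (hz a x).1 (hc (φ x)))
    · rintro ⟨y, hy⟩ h
      obtain ⟨y, rfl⟩ := hs y
      apply hy
      rw [hz]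
      have : y ∈ normGroup a := by rw [h]; trivial
      exact this
  have t3 : (∀ a : Fˣ, normGroup a ≠ ⊤ → ∃ t : Fˣ, normGroup a ≤ normGroup t ∧
      (normGroup t).index = 2) ↔ IndexTwoAbove S := by
    constructor
    · intro h a ha
      obtain ⟨a, rfl⟩ := hs a
      obtain ⟨t, h3, h4⟩ := h a ((ntop a).2 ha)
      refine ⟨φ t, fun x hx => ?_, (ntop t).1 ?_, (hidx t).1 h4.le⟩
      · obtain ⟨x, rfl⟩ := hs x
        exact (hz t x).2 (h3 ((hz a x).1 hx))
      · intro h5
        rw [h5, Subgroup.index_top] at h4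
        exact absurd h4 (by norm_num)
    · intro h a ha
      obtain ⟨t, h3, h4, h5⟩ := h (φ a) ((ntop a).1 ha)
      obtain ⟨t, rfl⟩ := hs t
      refine ⟨t, fun x hx => (hz t x).1 (h3 _ ((hz a x).2 hx)), ?_⟩
      have h6 := (hidx t).2 h5
      have h7 : (normGroup t).index ≠ 1 := fun h8 =>
        (ntop t).2 h4 (Subgroup.index_eq_one.1 h8)
      have h8 := hi0 t
      omega
  have t4 : Subgroup.closure {a : Fˣ | (normGroup a).index ≤ 2} = ⊤ ↔ IdxGroup S = ⊤ := by
    have e1 : (Subgroup.closure {a : Fˣ | (normGroup a).index ≤ 2}).map φ = IdxGroup S := by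
      rw [MonoidHom.map_closure, IdxGroup]
      congr 1
      ext x
      constructor
      · rintro ⟨a, ha, rfl⟩
        exact (hidx a).1 ha
      · intro hx
        obtain ⟨a, rfl⟩ := hs x
        exact ⟨a, (hidx a).2 hx, rfl⟩
    have e2 : φ.ker ≤ Subgroup.closure {a : Fˣ | (normGroup a).index ≤ 2} := by
      intro b hb
      refine Subgroup.subset_closure ?_
      have ht : normGroup b = ⊤ := by
        rw [eq_top_iff]
        intro c _
        exact NormFrom.of_sq h2 b c ((hk b).1 hb)
      show (normGroup b).index ≤ 2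
      rw [ht, Subgroup.index_top]
      norm_num
    constructor
    · intro h
      rw [← e1, h, ← MonoidHom.range_eq_map, MonoidHom.range_eq_top]
      exact hs
    · intro h
      rw [← Subgroup.comap_map_eq_self e2, e1, h, Subgroup.comap_top]
  -- the statement for structures
  have key : UniversalKernels S → Elem S ∧ ProdTwo S := fun h =>
    ⟨elem_of_kernels hSq hSfin h, prodTwo_of_elem hSq (elem_of_kernels hSq hSfin h) h⟩
  have g1 : ProductsClosed S → UniversalBelow S :=
    fun h => below_of_star hSq (star_of_closed hSq h)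
  have g2 : TripleProducts S ∧ IndexTwoAbove S → UniversalBelow S := fun h =>
    below_of_star hSq (star_of_index hSq h.1 h.2)
  have g3 : UniversalBelow S → UniversalKernels S := kernels_of_below
  have g4 : ProdTwo S → UniversalBelow S := fun h => g1 (good_of_prodTwo h).closed
  rw [hP, t1, t2, t3, t4, hel]
  exact ⟨⟨fun h => (good_of_prodTwo h).closed, fun h => (key (g3 (g1 h))).2⟩,
    ⟨gen_of_prodTwo, fun h => prodTwo_of_elem_tp hSq (elem_of_core hSq (by
      rw [core_top_of_gen h, Subgroup.index_top]; norm_num)) (triple_of_gen hSq h)⟩,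
    ⟨fun h => ⟨(good_of_prodTwo h).triple, (good_of_prodTwo h).index⟩,
      fun h => (key (g3 (g2 h))).2⟩,
    ⟨fun h => ⟨(good_of_prodTwo h).triple, (key (g3 (g4 h))).1⟩,
      fun h => prodTwo_of_elem_tp hSq h.2 h.1⟩⟩

end Pool.Agent.Results.MP_2429c0_al.NormGroupProducts
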