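import Pool.Agent.H315R3.ETC.Main
import Pool.Agent.H315R3.ETC.Rec
import Pool.Agent.TH673.VG.FieldInd

/-! # MP_2429c0_al: fields with transitive norm relation

Let `F` be a field of characteristic `≠ 2` in which `-1` is a square, with finitely many square
classes, and let `N(a)` be the group of the nonzero values of `x² - a y²`.  If `N(b) ⊆ N(a)` for
all `a` and all nonsquares `b ∈ N(a)`, then the quaternionic structure of `F` is of elementary
type.  This holds if `N(a)` has at most four classes modulo squares for every nonsquare `a`. -/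

set_option autoImplicit false

namespace Pool.Agent.Results.MP_2429c0_al.TransitiveNorms

open Pool.Agent.H315R3.ETC Pool.Agent.TH188.ET Pool.Agent.TH673.VG

/-- the group of squares of `F*` -/
def squares (F : Type*) [Field F] : Subgroup Fˣ := (powMonoidHom 2 : Fˣ →* Fˣ).range

theorem result {F : Type*} [Field F] (h2 : (2 : F) ≠ 0) (hfin : FinSq F)
    (hm : IsSquare (-1 : F)) :
    ((∀ a b : Fˣ, b ∉ squares F → b ∈ normGroup a → normGroup b ≤ normGroup a) →
      ∃ S : QData, Elem S ∧ IsStructureOf F S) ∧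
    ((∀ a : Fˣ, a ∉ squares F → (squares F).relIndex (normGroup a) ≤ 4) →
      ∃ S : QData, Elem S ∧ IsStructureOf F S) := by
  obtain ⟨S, hS, hSfin, hSq⟩ := exists_structure h2 hfin
  obtain ⟨φ, hs, hk, hn, h0, hq⟩ := id hS
  have hz : ∀ a b : Fˣ, S.q (φ a) (φ b) = S.zero ↔ NormFrom a b := by
    intro a b
    rw [← qiso_one h2, ← h0, ← map_one φ]
    exact hq a b 1 1
  have hker : squares F = φ.ker := by
    ext a
    rw [MonoidHom.mem_ker, hk]
    constructor
    · rintro ⟨b, hb⟩; exact ⟨b, hb.symm⟩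
    · rintro ⟨b, hb⟩; exact ⟨b, hb.symm⟩
  have hneg : S.neg = 1 := by
    rw [← hn, hk]
    obtain ⟨r, hr⟩ := hm
    have hr0 : r ≠ 0 := by
      rintro rfl
      rw [mul_zero] at hr
      exact neg_ne_zero.2 one_ne_zero hr
    refine ⟨Units.mk0 r hr0, ?_⟩
    ext
    rw [Units.val_neg, Units.val_one, Units.val_pow_eq_pow_val, Units.val_mk0, hr, pow_two]
  refine ⟨fun h => ⟨S, main S hSq hSfin hneg ?_, hS⟩,
    fun h => ⟨S, main S hSq hSfin hneg (trans_of_small hSq hneg hSfin ?_), hS⟩⟩
  · intro a b c hb h3 h5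
    obtain ⟨a, rfl⟩ := hs a
    obtain ⟨b, rfl⟩ := hs b
    obtain ⟨c, rfl⟩ := hs c
    rw [hz] at h3 h5 ⊢
    exact h a b (by rw [hker, MonoidHom.mem_ker]; exact hb) h3 h5
  · intro x hx
    obtain ⟨a, rfl⟩ := hs x
    have h3 := h a (by rw [hker, MonoidHom.mem_ker]; exact hx)
    rw [hker, Subgroup.relIndex_ker] at h3
    refine le_trans (le_of_eq ?_) h3
    show ({b : S.G | S.q (φ a) b = S.zero}).ncard = Nat.card ((normGroup a).map φ)
    have : {b : S.G | S.q (φ a) b = S.zero} = (((normGroup a).map φ : Subgroup S.G) : Set S.G) := by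
      ext b
      obtain ⟨c, rfl⟩ := hs b
      show S.q (φ a) (φ c) = S.zero ↔ _
      rw [hz, SetLike.mem_coe, Subgroup.mem_map]
      constructor
      · intro hc
        exact ⟨c, hc, rfl⟩
      · rintro ⟨d, hd, hdc⟩
        obtain ⟨e, rfl⟩ := eq_mul_sq hk hdc
        exact (NormFrom.mul hd (NormFrom.sq a e) : NormFrom a (d * e ^ 2))
    rw [this]
    rfl

end Pool.Agent.Results.MP_2429c0_al.TransitiveNorms
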